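import Pool.Agent.Q138.Cofactor

set_option autoImplicit false

/-!
# Coning and Betti numbers of trivariate cofactor chain complexes

`betti Δ p o s k` is the Betti number in degree `k - 1` of the cofactor complex
`K^{s-1}_s(Δ; p)`, where `o` records the chosen orientations of the simplices. The vertices of `Δ`
and the apex `w` of the cone are elements of a finite linearly ordered set `α`, and `p` is defined
on `α`, so that the restriction of `p` to the vertices of the cone is the configuration
`(p_w, p)`.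
-/

namespace Pool.Agent.Results.MP_9cf723_co.ConingBetti

open Q138.Cofactor

/-- the example: one 2-simplex, `α = Fin 4`, the apex is `3` -/
def Δ₀ : Finset (Finset (Fin 4)) := ({0, 1, 2} : Finset (Fin 4)).powerset

/-- three collinear points, and the apex off the line -/
noncomputable def p₀ : Fin 4 → (Fin 3 → ℝ) := ![![0, 0, 0], ![1, 0, 0], ![2, 0, 0], ![0, 1, 0]]

theorem complex₀ : IsComplex Δ₀ := by
  refine ⟨by simp [Δ₀], fun ψ hψ θ hθ => ?_, fun ψ hψ => ?_⟩
  · unfold Δ₀ at *
    rw [Finset.mem_powerset] at *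
    exact hθ.trans hψ
  · unfold Δ₀ at hψ
    rw [Finset.mem_powerset] at hψ
    exact (Finset.card_le_card hψ).trans (by decide)

/-- The answer to Q1. First part: for every simplicial 2-complex, every configuration `p`, every
`s` and every apex in general position, the Betti numbers in degrees `-1, 0, 1` agree, and the
Betti numbers in degree `2` agree if and only if the vertices of every 2-simplex are placed at
affinely independent points. Second part: consequently the statement asked for in Q1 for every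
configuration is false (there is a counterexample with one 2-simplex). -/
theorem result :
    (∀ (α : Type) [Fintype α] [LinearOrder α] (Δ : Finset (Finset α)) (p : α → (Fin 3 → ℝ))
        (o : Finset α → ℤˣ) (s : ℕ) (w : α), IsComplex Δ → {w} ∉ Δ → GeneralPosition w Δ p →
      (∀ k ≤ 2, betti Δ p o s k = betti (cone w Δ) p o (s + 1) k) ∧
      (betti Δ p o s 3 = betti (cone w Δ) p o (s + 1) 3 ↔
        ∀ σ ∈ Δ, σ.card = 3 → AffineIndependent ℝ (fun v : σ => p v))) ∧
    ¬ (∀ (α : Type) [Fintype α] [LinearOrder α] (Δ : Finset (Finset α)) (p : α → (Fin 3 → ℝ))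
        (o : Finset α → ℤˣ) (s : ℕ) (w : α), IsComplex Δ → {w} ∉ Δ → GeneralPosition w Δ p →
      (∃ σ ∈ Δ, σ.card = 3) → ∀ k ≤ 3, betti Δ p o s k = betti (cone w Δ) p o (s + 1) k) := by
  have h1 : ∀ (α : Type) [Fintype α] [LinearOrder α] (Δ : Finset (Finset α))
      (p : α → (Fin 3 → ℝ))
        (o : Finset α → ℤˣ) (s : ℕ) (w : α), IsComplex Δ → {w} ∉ Δ → GeneralPosition w Δ p →
      (∀ k ≤ 2, betti Δ p o s k = betti (cone w Δ) p o (s + 1) k) ∧
      (betti Δ p o s 3 = betti (cone w Δ) p o (s + 1) 3 ↔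
        ∀ σ ∈ Δ, σ.card = 3 → AffineIndependent ℝ (fun v : σ => p v)) := by
    intro α _ _ Δ p o s w hΔ hw hg
    exact main hΔ hw hg o s
  refine ⟨h1, fun h => ?_⟩
  have hw : ({3} : Finset (Fin 4)) ∉ Δ₀ := by decide
  have hline : ∀ v : Fin 4, {v} ∈ Δ₀ → p₀ v 1 = 0 := by
    intro v hv
    fin_cases v
    · rfl
    · rfl
    · rfl
    · exact absurd hv hw
  have hg : GeneralPosition (3 : Fin 4) Δ₀ p₀ := by
    intro S hS _ hmem
    have h2 : affineSpan ℝ (p₀ '' S) ≤
        (LinearMap.ker (LinearMap.proj 1 : (Fin 3 → ℝ) →ₗ[ℝ] ℝ)).toAffineSubspace := by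
      rw [affineSpan_le]
      rintro _ ⟨v, hv, rfl⟩
      exact hline v (hS v hv)
    have h3 : p₀ 3 1 = 0 := h2 hmem
    have h4 : p₀ 3 1 = 1 := rfl
    rw [h4] at h3
    exact one_ne_zero h3
  have hmem : ({0, 1, 2} : Finset (Fin 4)) ∈ Δ₀ := by decide
  have h2 := (h1 (Fin 4) Δ₀ p₀ 1 0 3 complex₀ hw hg).2.1
    (h (Fin 4) Δ₀ p₀ 1 0 3 complex₀ hw hg ⟨_, hmem, by decide⟩ 3 le_rfl) _ hmem (by decide)
  rw [ai_iff] at h2
  have h3 := h2 (fun v => if (v : Fin 4) = 1 then -2 else 1) (by
    rw [Finset.sum_coe_sort ({0, 1, 2} : Finset (Fin 4)) (fun v => if v = 1 then (-2 : ℝ) else 1)]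
    simp
    norm_num) (by
    rw [Finset.sum_coe_sort ({0, 1, 2} : Finset (Fin 4))
      (fun v => (if v = 1 then (-2 : ℝ) else 1) • p₀ v)]
    funext i
    fin_cases i <;> simp [p₀])
  have h4 := congrFun h3 ⟨0, by decide⟩
  simp at h4

end Pool.Agent.Results.MP_9cf723_co.ConingBetti
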